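import Pool.Agent.Lib.MP_5349a4_pr.M.Iface3

/-!
Module INVD: deterministic facts about the invasion.
-/

set_option autoImplicit false
open MeasureTheory Set
open scoped ENNReal NNReal

namespace Pool.Agent.Lib.MP_5349a4_pr.H83

open Pool.Agent.Lib.MP_5349a4_pr

section
variable {d : ℕ}

/-- the infimal distance to a finite nonempty set is attained -/
theorem inf_attained {R : Set (Eu d)} (hR : R.Finite) (hne : R.Nonempty) (p : Eu d) :
    ∃ u ∈ R, Metric.infEDist p R = edist p u :=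
  hR.isCompact.exists_infEDist_eq_edist hne p

theorem inf_ne_top {R : Set (Eu d)} (hR : R.Finite) (hne : R.Nonempty) (p : Eu d) :
    Metric.infEDist p R ≠ ∞ := by
  obtain ⟨u, -, hu⟩ := inf_attained hR hne p
  rw [hu]
  exact edist_ne_top p u

theorem bdd_inf {R : Set (Eu d)} (hR : R.Finite) (hne : R.Nonempty) {M : ℝ≥0∞} (hM : M ≠ ∞) :
    Bornology.IsBounded {p | Metric.infEDist p R ≤ M} := by
  have h1 : {p | Metric.infEDist p R ≤ M} ⊆ ⋃ u ∈ R, Metric.closedBall u M.toReal := by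
    intro p hp
    obtain ⟨u, hu, hpu⟩ := inf_attained hR hne p
    rw [mem_iUnion₂]
    refine ⟨u, hu, ?_⟩
    rw [Metric.mem_closedBall, dist_edist]
    refine ENNReal.toReal_mono hM ?_
    rw [← hpu]
    exact hp
  refine Bornology.IsBounded.subset ?_ h1
  exact (Bornology.isBounded_biUnion hR).2 fun u _ => Metric.isBounded_closedBall

theorem inv_mono_succ (P : Set (Eu d)) (o : Eu d) (k : ℕ) : inv P o k ⊆ inv P o (k + 1) := by
  intro p hp
  exact Or.inl hp

theorem inv_mono (P : Set (Eu d)) (o : Eu d) {j k : ℕ} (h : j ≤ k) : inv P o j ⊆ inv P o k :=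
  monotone_nat_of_le_succ (inv_mono_succ P o) h

theorem mem_inv_succ {P : Set (Eu d)} {o : Eu d} {k : ℕ} {p : Eu d} :
    p ∈ inv P o (k + 1) ↔ p ∈ inv P o k ∨
      (p ∈ P \ inv P o k ∧ Metric.infEDist p (inv P o k) = lab P o k) := Iff.rfl

theorem inv_nonempty (P : Set (Eu d)) (o : Eu d) (k : ℕ) : (inv P o k).Nonempty :=
  ⟨o, inv_mono P o (Nat.zero_le k) rfl⟩

theorem mem_inv_o (P : Set (Eu d)) (o : Eu d) (k : ℕ) : o ∈ inv P o k :=
  inv_mono P o (Nat.zero_le k) rfl

theorem inv_subset (P : Set (Eu d)) (o : Eu d) (k : ℕ) : inv P o k ⊆ insert o P := by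
  induction k with
  | zero =>
    intro p hp
    exact Or.inl hp
  | succ k ih =>
    intro p hp
    rcases mem_inv_succ.1 hp with h | h
    · exact ih h
    · exact Or.inr h.1.1

theorem lab_le {P : Set (Eu d)} {o : Eu d} {k : ℕ} {q : Eu d} (hq : q ∈ P \ inv P o k) :
    lab P o k ≤ Metric.infEDist q (inv P o k) := iInf₂_le q hq

theorem lab_ne_top_of {P : Set (Eu d)} {o : Eu d} {k : ℕ} (hfin : (inv P o k).Finite) {q : Eu d}
    (hq : q ∈ P \ inv P o k) : lab P o k ≠ ∞ :=
  ne_top_of_le_ne_top (inf_ne_top hfin (inv_nonempty P o k) q) (lab_le hq)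

theorem lab_top_of {P : Set (Eu d)} {o : Eu d} {k : ℕ} (h : P \ inv P o k = ∅) :
    lab P o k = ∞ := by
  unfold lab
  rw [h]
  simp

theorem inv_finite {P : Set (Eu d)} (hP : LF P) (o : Eu d) (k : ℕ) : (inv P o k).Finite := by
  induction k with
  | zero => exact finite_singleton o
  | succ k ih =>
    refine ih.union ?_
    rcases (P \ inv P o k).eq_empty_or_nonempty with h | ⟨q, hq⟩
    · refine Set.Finite.subset finite_empty ?_
      rintro p ⟨hp, -⟩
      rw [← h]
      exact hp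
    · refine (hP _ (bdd_inf ih (inv_nonempty P o k) (lab_ne_top_of ih hq))).subset ?_
      rintro p ⟨hp, hp'⟩
      exact ⟨hp.1, le_of_eq hp'⟩

/-- the label is attained -/
theorem lab_attained {P : Set (Eu d)} (hP : LF P) (o : Eu d) (k : ℕ)
    (hne : (P \ inv P o k).Nonempty) :
    ∃ p ∈ P \ inv P o k, Metric.infEDist p (inv P o k) = lab P o k := by
  obtain ⟨q, hq⟩ := hne
  have hfin := inv_finite hP o k
  have hA : {p | p ∈ P \ inv P o k ∧
      Metric.infEDist p (inv P o k) ≤ Metric.infEDist q (inv P o k)}.Finite := by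
    refine (hP _ (bdd_inf hfin (inv_nonempty P o k)
      (inf_ne_top hfin (inv_nonempty P o k) q))).subset ?_
    rintro p ⟨hp, hp'⟩
    exact ⟨hp.1, hp'⟩
  obtain ⟨p, ⟨hp, hpq⟩, hmin⟩ := Set.exists_min_image _
    (fun p => Metric.infEDist p (inv P o k)) hA ⟨q, hq, le_rfl⟩
  refine ⟨p, hp, le_antisymm ?_ (lab_le hp)⟩
  refine le_iInf₂ fun z hz => ?_
  rcases le_total (Metric.infEDist z (inv P o k)) (Metric.infEDist q (inv P o k)) with h | h
  · exact hmin z ⟨hz, h⟩
  · exact hpq.trans h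

theorem wet_mono (P : Set (Eu d)) (o : Eu d) {j k : ℕ} (h : j ≤ k) : wet P o j ⊆ wet P o k := by
  rintro e ⟨i, hi, he⟩
  exact ⟨i, lt_of_lt_of_le hi h, he⟩

/-- the step at which a point is invaded -/
theorem entry {P : Set (Eu d)} {o : Eu d} {k : ℕ} {p : Eu d} (hp : p ∈ inv P o k) (hpo : p ≠ o) :
    ∃ j < k, p ∈ P \ inv P o j ∧ Metric.infEDist p (inv P o j) = lab P o j := by
  induction k with
  | zero => exact absurd hp hpo
  | succ k ih =>
    rcases mem_inv_succ.1 hp with h | h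
    · obtain ⟨j, hj, h1⟩ := ih h
      exact ⟨j, by omega, h1⟩
    · exact ⟨k, by omega, h⟩

theorem item2 {P : Set (Eu d)} {o : Eu d} (ho : o ∉ P) (k : ℕ) :
    P ∩ wet P o k = inv P o k \ {o} := by
  ext p
  constructor
  · rintro ⟨hp, j, hj, hpj⟩
    refine ⟨?_, fun h => ho (h ▸ hp)⟩
    by_cases hpi : p ∈ inv P o j
    · exact inv_mono P o hj.le hpi
    · exact inv_mono P o (show j + 1 ≤ k from hj)
        (mem_inv_succ.2 (Or.inr ⟨⟨hp, hpi⟩, le_antisymm hpj (lab_le ⟨hp, hpi⟩)⟩))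
  · rintro ⟨hp, hpo⟩
    obtain ⟨j, hj, hpj, h⟩ := entry hp hpo
    exact ⟨hpj.1, j, hj, h.le⟩

theorem item3 {P Q : Set (Eu d)} {o : Eu d} (hP : LF P) (k : ℕ)
    (h : Q ∩ wet P o k = P ∩ wet P o k) :
    (∀ j ≤ k, inv Q o j = inv P o j) ∧ (∀ j < k, lab Q o j = lab P o j) ∧
      wet Q o k = wet P o k := by
  have hmem : ∀ p, p ∈ wet P o k → (p ∈ Q ↔ p ∈ P) := by
    intro p hp
    have h1 : p ∈ Q ∩ wet P o k ↔ p ∈ P ∩ wet P o k := by rw [h]
    exact ⟨fun h2 => (h1.1 ⟨h2, hp⟩).1, fun h2 => (h1.2 ⟨h2, hp⟩).1⟩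
  have hlab : ∀ j, j < k → inv Q o j = inv P o j → lab Q o j = lab P o j := by
    intro j hj hinv
    refine le_antisymm ?_ ?_
    · rcases (P \ inv P o j).eq_empty_or_nonempty with h1 | h1
      · rw [lab_top_of h1]
        exact le_top
      · obtain ⟨p, hp, hpl⟩ := lab_attained hP o j h1
        rw [← hpl, ← hinv]
        refine lab_le ⟨(hmem p ⟨j, hj, hpl.le⟩).2 hp.1, ?_⟩
        rw [hinv]
        exact hp.2
    · refine le_iInf₂ fun q hq => ?_
      rw [hinv] at hq ⊢
      rcases le_total (Metric.infEDist q (inv P o j)) (lab P o j) with h1 | h1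
      · exact lab_le ⟨(hmem q ⟨j, hj, h1⟩).1 hq.1, hq.2⟩
      · exact h1
  have hinv : ∀ j, j ≤ k → inv Q o j = inv P o j := by
    intro j
    induction j with
    | zero => exact fun _ => rfl
    | succ j ih =>
      intro hj
      have h1 := ih (by omega)
      have h2 := hlab j (by omega) h1
      ext p
      rw [mem_inv_succ, mem_inv_succ, h1, h2]
      refine or_congr Iff.rfl ⟨?_, ?_⟩
      · rintro ⟨h3, h4⟩
        exact ⟨⟨(hmem p ⟨j, by omega, h4.le⟩).1 h3.1, h3.2⟩, h4⟩
      · rintro ⟨h3, h4⟩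
        exact ⟨⟨(hmem p ⟨j, by omega, h4.le⟩).2 h3.1, h3.2⟩, h4⟩
  refine ⟨hinv, fun j hj => hlab j hj (hinv j hj.le), ?_⟩
  ext e
  constructor
  · rintro ⟨j, hj, he⟩
    rw [hinv j hj.le, hlab j hj (hinv j hj.le)] at he
    exact ⟨j, hj, he⟩
  · rintro ⟨j, hj, he⟩
    rw [← hinv j hj.le, ← hlab j hj (hinv j hj.le)] at he
    exact ⟨j, hj, he⟩

theorem close_of {P : Set (Eu d)} (hP : LF P) {o : Eu d} {j : ℕ} {e : Eu d} {t : ℝ} (ht : t ≤ 2)
    (h1 : lab P o j ≤ ENNReal.ofReal t) (h2 : Metric.infEDist e (inv P o j) ≤ lab P o j) :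
    ∃ u ∈ inv P o j, dist e u ≤ 2 := by
  obtain ⟨u, hu, heu⟩ := inf_attained (inv_finite hP o j) (inv_nonempty P o j) e
  refine ⟨u, hu, ?_⟩
  rw [heu] at h2
  have h3 : edist e u ≤ ENNReal.ofReal 2 :=
    (h2.trans h1).trans (ENNReal.ofReal_le_ofReal ht)
  rw [edist_dist] at h3
  exact (ENNReal.ofReal_le_ofReal_iff (by norm_num)).1 h3

theorem item4 {P : Set (Eu d)} (hP : LF P) (o : Eu d) (th : ℕ → ℝ) (i : ℕ) (hth : ∀ j, th j ≤ 2)
    (hg : good th P o i) : inv P o i ⊆ bal o (2 * i) ∧ wet P o i ⊆ nbd 2 (inv P o i) := by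
  constructor
  · have key : ∀ j, j ≤ i → inv P o j ⊆ bal o (2 * j) := by
      intro j
      induction j with
      | zero =>
        intro _ p hp
        have hpo : p = o := hp
        rw [hpo]
        simp [bal]
      | succ j ih =>
        intro hj p hp
        rcases mem_inv_succ.1 hp with h | h
        · have h1 := ih (by omega) h
          rw [bal, Metric.mem_closedBall] at h1 ⊢
          push_cast
          linarith
        · obtain ⟨u, hu, hpu⟩ := close_of hP (hth j) (hg j (by omega)) h.2.le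
          have h1 := ih (by omega) hu
          rw [bal, Metric.mem_closedBall] at h1 ⊢
          have h2 := dist_triangle p u o
          push_cast
          linarith
    exact key i le_rfl
  · rintro e ⟨j, hj, he⟩
    obtain ⟨u, hu, heu⟩ := close_of hP (hth j) (hg j hj) he
    exact ⟨u, inv_mono P o hj.le hu, heu⟩

theorem item5 {P Q : Set (Eu d)} (hP : LF P) (o : Eu d) (th : ℕ → ℝ) (i : ℕ)
    (hth : ∀ j, th j ≤ 2) (hg : good th P o i)
    (hPQ : P ∩ bal o (2 * i + 2) = Q ∩ bal o (2 * i + 2)) :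
    good th Q o i ∧ ∀ j ≤ i, inv Q o j = inv P o j := by
  obtain ⟨h1, h2⟩ := item4 hP o th i hth hg
  have h3 : wet P o i ⊆ bal o (2 * i + 2) := by
    intro e he
    obtain ⟨u, hu, heu⟩ := h2 he
    have h4 := h1 hu
    rw [bal, Metric.mem_closedBall] at h4 ⊢
    have h5 := dist_triangle e u o
    linarith
  have h4 : Q ∩ wet P o i = P ∩ wet P o i := by
    ext p
    constructor
    · rintro ⟨hp, hw⟩
      have : p ∈ P ∩ bal o (2 * i + 2) := by rw [hPQ]; exact ⟨hp, h3 hw⟩
      exact ⟨this.1, hw⟩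
    · rintro ⟨hp, hw⟩
      have : p ∈ Q ∩ bal o (2 * i + 2) := by rw [← hPQ]; exact ⟨hp, h3 hw⟩
      exact ⟨this.1, hw⟩
  obtain ⟨h5, h6, -⟩ := item3 hP i h4
  refine ⟨fun j hj => ?_, h5⟩
  rw [h6 j hj]
  exact hg j hj

theorem item6 {P : Set (Eu d)} (hP : LF P) (o : Eu d) (D : Set (Eu d)) (m : ℕ)
    (hD : Disjoint D (inv P o m)) : ∀ j ≤ m, inv (P \ D) o j = inv P o j := by
  intro j
  induction j with
  | zero => exact fun _ => rfl
  | succ j ih =>
    intro hj
    have h1 := ih (by omega)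
    have hnew : ∀ p, p ∈ P \ inv P o j → Metric.infEDist p (inv P o j) = lab P o j → p ∉ D := by
      intro p hp hpl hpD
      exact Set.disjoint_left.1 hD hpD (inv_mono P o hj (mem_inv_succ.2 (Or.inr ⟨hp, hpl⟩)))
    have h2 : lab (P \ D) o j = lab P o j := by
      refine le_antisymm ?_ ?_
      · rcases (P \ inv P o j).eq_empty_or_nonempty with h3 | h3
        · rw [lab_top_of h3]
          exact le_top
        · obtain ⟨p, hp, hpl⟩ := lab_attained hP o j h3
          rw [← hpl, ← h1]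
          refine lab_le ⟨⟨hp.1, hnew p hp hpl⟩, ?_⟩
          rw [h1]
          exact hp.2
      · refine le_iInf₂ fun q hq => ?_
        rw [h1] at hq ⊢
        exact lab_le ⟨hq.1.1, hq.2⟩
    ext p
    rw [mem_inv_succ, mem_inv_succ, h1, h2]
    refine or_congr Iff.rfl ⟨?_, ?_⟩
    · rintro ⟨h3, h4⟩
      exact ⟨⟨h3.1.1, h3.2⟩, h4⟩
    · rintro ⟨h3, h4⟩
      exact ⟨⟨⟨h3.1, hnew p h3 h4⟩, h3.2⟩, h4⟩

/-- in general position one point is invaded at each step -/
theorem new_unique {P : Set (Eu d)} (hP : LF P) {o : Eu d} (hG : GenO P o) {k : ℕ} {p q : Eu d}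
    (hp : p ∈ P \ inv P o k) (hq : q ∈ P \ inv P o k)
    (hpl : Metric.infEDist p (inv P o k) = lab P o k)
    (hql : Metric.infEDist q (inv P o k) = lab P o k) : p = q := by
  obtain ⟨u, hu, hpu⟩ := inf_attained (inv_finite hP o k) (inv_nonempty P o k) p
  obtain ⟨v, hv, hqv⟩ := inf_attained (inv_finite hP o k) (inv_nonempty P o k) q
  have h1 : edist p u = edist q v := by rw [← hpu, ← hqv, hpl, hql]
  have h2 : dist p u = dist q v := by rw [dist_edist, dist_edist, h1]
  have hpu' : p ≠ u := fun h => hp.2 (h ▸ hu)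
  have hqv' : q ≠ v := fun h => hq.2 (h ▸ hv)
  rcases hG.2 p (Or.inr hp.1) u (inv_subset P o k hu) q (Or.inr hq.1) v (inv_subset P o k hv)
    hpu' hqv' h2 with h3 | h3
  · exact h3.1
  · exact absurd hv (h3.1 ▸ hp.2)

theorem item7 {P : Set (Eu d)} (hP : LF P) {o : Eu d} (hG : GenO P o) (k : ℕ) :
    (inv P o k).ncard ≤ k + 1 ∧ ((k : ℕ∞) ≤ P.encard → (inv P o k).ncard = k + 1) := by
  induction k with
  | zero =>
    have h0 : inv P o 0 = {o} := rfl
    rw [h0, ncard_singleton]
    exact ⟨le_rfl, fun _ => rfl⟩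
  | succ k ih =>
    obtain ⟨ih1, ih2⟩ := ih
    have hfin := inv_finite hP o k
    rcases (P \ inv P o k).eq_empty_or_nonempty with h1 | h1
    · have h2 : inv P o (k + 1) = inv P o k := by
        ext p
        rw [mem_inv_succ]
        constructor
        · rintro (h | h)
          · exact h
          · rw [h1] at h
            exact absurd h.1 (Set.notMem_empty _)
        · exact Or.inl
      rw [h2]
      refine ⟨by omega, fun h3 => ?_⟩
      exfalso
      have h4 : insert o P ⊆ inv P o k := by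
        rintro p (rfl | hp)
        · exact mem_inv_o P p k
        · by_contra hpi
          have : p ∈ P \ inv P o k := ⟨hp, hpi⟩
          rw [h1] at this
          exact this
      have h5 := encard_le_encard h4
      rw [encard_insert_of_notMem hG.1, ← hfin.cast_ncard_eq] at h5
      have h6 : ((k + 1 : ℕ) : ℕ∞) + 1 ≤ ((inv P o k).ncard : ℕ∞) :=
        (add_le_add_left h3 1).trans h5
      have h7 : (k + 1 : ℕ) + 1 ≤ (inv P o k).ncard := by exact_mod_cast h6
      omega
    · obtain ⟨p, hp, hpl⟩ := lab_attained hP o k h1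
      have h2 : inv P o (k + 1) = insert p (inv P o k) := by
        ext q
        rw [mem_inv_succ]
        constructor
        · rintro (h | h)
          · exact Or.inr h
          · exact Or.inl (new_unique hP hG h.1 hp h.2 hpl)
        · rintro (rfl | h)
          · exact Or.inr ⟨hp, hpl⟩
          · exact Or.inl h
      rw [h2, ncard_insert_of_notMem hp.2 hfin]
      refine ⟨by omega, fun h3 => ?_⟩
      rw [ih2 (le_trans (by exact_mod_cast Nat.le_succ k) h3)]

theorem item8 {P : Set (Eu d)} (hP : LF P) {o : Eu d} (hG : GenO P o) (r : ℝ) (m n : ℕ)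
    (hr : 0 ≤ r) (hn : n + 1 ≤ (CLr r P (inv P o m)).ncard) (j : ℕ) (hmj : m ≤ j) (hjn : j < n) :
    lab P o j ≤ ENNReal.ofReal r := by
  have hfin := inv_finite hP o j
  have h1 : ¬ CLr r P (inv P o m) ⊆ inv P o j := by
    intro h
    have h2 := ncard_le_ncard h hfin
    have h3 := (item7 hP hG j).1
    omega
  rw [Set.not_subset] at h1
  obtain ⟨p, ⟨x, hx, hxp⟩, hpj⟩ := h1
  have hxj : x ∈ inv P o j := inv_mono P o hmj hx
  have h4 : ∀ z, Relation.ReflTransGen (step (ad r) P) x z → z ∉ inv P o j →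
      ∃ a ∈ inv P o j, ∃ b ∈ P \ inv P o j, dist a b ≤ r := by
    intro z hz
    induction hz with
    | refl => exact fun h => absurd hxj h
    | @tail b c _ hbc ih =>
      intro hc
      by_cases hb : b ∈ inv P o j
      · exact ⟨b, hb, c, ⟨hbc.2, hc⟩, hbc.1⟩
      · exact ih hb
  obtain ⟨a, ha, b, hb, hab⟩ := h4 p hxp hpj
  refine (lab_le hb).trans ((Metric.infEDist_le_edist_of_mem ha).trans ?_)
  rw [edist_comm, edist_dist]
  exact ENNReal.ofReal_le_ofReal hab

end

theorem invd : InvDStatement := by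
  intro d P Q o hP _
  refine ⟨fun k => ⟨inv_mono_succ P o k, inv_subset P o k, inv_finite hP o k⟩,
    fun ho k => item2 ho k, fun k h => item3 hP k h, fun th i hth hg => item4 hP o th i hth hg,
    fun th i hth hg h => item5 hP o th i hth hg h, fun D m hD => item6 hP o D m hD,
    fun hG k => item7 hP hG k, fun hG r m n hr _ hn j hmj hjn => item8 hP hG r m n hr hn j hmj hjn⟩

end Pool.Agent.Lib.MP_5349a4_pr.H83
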